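import Pool.Agent.Helper45.TY.Box
import Pool.Agent.Helper1.TY.BaseQ

/-!
# The set of numbers of a minimal linear code has at most two representations
-/

set_option autoImplicit false

namespace Pool.Agent.Helper98.TY

open Finset Pool.Agent.Helper45.TY

lemma cast_card_two {n : ℕ} (p : Fin n → Bool) :
    ((#{i | p i = true} : ℕ) : ZMod 2) = ∑ i, if p i = true then 1 else 0 := by
  rw [Finset.card_filter]
  push_cast
  rfl

lemma even_xor {n : ℕ} (h c e : Fin n → Bool) (hc : Even #{i | (h i && c i) = true})
    (he : Even #{i | (h i && e i) = true}) : Even #{i | (h i && (xor (c i) (e i))) = true} := by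
  rw [← ZMod.natCast_eq_zero_iff_even, cast_card_two] at hc he ⊢
  have key : ∀ i, (if (h i && (xor (c i) (e i))) = true then (1 : ZMod 2) else 0) =
      (if (h i && c i) = true then 1 else 0) + (if (h i && e i) = true then 1 else 0) := by
    intro i
    cases h i <;> cases c i <;> cases e i <;> decide
  rw [Finset.sum_congr rfl fun i _ => key i, Finset.sum_add_distrib, hc, he, add_zero]

/-- the number of a word -/
def num {n : ℕ} (c : Fin n → Bool) : ℕ := ∑ i : Fin n, if c i = true then 3 ^ (i : ℕ) else 0

lemma num_add {n : ℕ} (c e : Fin n → Bool) : num c + num e =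
    (finFunctionFinEquiv (fun i => (⟨(c i).toNat + (e i).toNat, by
      have h1 := Bool.toNat_le (c i)
      have h2 := Bool.toNat_le (e i)
      omega⟩ : Fin 3)) : ℕ) := by
  rw [finFunctionFinEquiv_apply]
  unfold num
  rw [← Finset.sum_add_distrib]
  refine Finset.sum_congr rfl fun i _ => ?_
  have key : ∀ a b : Bool, ((if a = true then 3 ^ (i : ℕ) else 0) +
      if b = true then 3 ^ (i : ℕ) else 0) = (a.toNat + b.toNat) * 3 ^ (i : ℕ) := by
    intro a b
    cases a <;> cases b <;> simp <;> ring
  exact key _ _

lemma digits_eq {n : ℕ} {c e c' e' : Fin n → Bool} (h : num c + num e = num c' + num e')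
    (i : Fin n) : (c i).toNat + (e i).toNat = (c' i).toNat + (e' i).toNat := by
  rw [num_add, num_add] at h
  have h1 := finFunctionFinEquiv.injective (Fin.ext h)
  exact congrArg Fin.val (congrFun h1 i)

/-- **The set of a minimal linear code.** If no nonzero word of the binary code with the parity
checks `H` lies below another one, then the set of the numbers `∑ c_i 3^i`, `c` in the code, has at
most two representations of every number (a Sidon set). -/
theorem sidon_of_code {n : ℕ} (H : Fin n → Fin n → Bool)
    (hmin : ∀ c e : Fin n → Bool, (∀ k, Even #{i | (H k i && c i) = true}) →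
      (∀ k, Even #{i | (H k i && e i) = true}) → (∀ i, c i = true → e i = true) →
      c = (fun _ => false) ∨ c = e) (N : ℕ) :
    rep {a | ∃ c : Fin n → Bool, (∀ k, Even #{i | (H k i && c i) = true}) ∧
      a = ∑ i : Fin n, if c i = true then 3 ^ (i : ℕ) else 0} N ≤ 2 := by
  classical
  unfold rep
  rcases Set.eq_empty_or_nonempty {q : ℕ × ℕ | q.1 ∈ {a | ∃ c : Fin n → Bool,
      (∀ k, Even #{i | (H k i && c i) = true}) ∧
      a = ∑ i : Fin n, if c i = true then 3 ^ (i : ℕ) else 0} ∧
      q.2 ∈ {a | ∃ c : Fin n → Bool, (∀ k, Even #{i | (H k i && c i) = true}) ∧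
      a = ∑ i : Fin n, if c i = true then 3 ^ (i : ℕ) else 0} ∧ q.1 + q.2 = N} with h0 | h0
  · rw [h0, Set.ncard_empty]
    omega
  · obtain ⟨⟨a1, b1⟩, ⟨c1, hc1, ha1⟩, ⟨e1, he1, hb1⟩, hN⟩ := h0
    have ha1' : a1 = num c1 := ha1
    have hb1' : b1 = num e1 := hb1
    have hN' : a1 + b1 = N := hN
    refine (Set.ncard_le_ncard (t := (({(a1, b1), (b1, a1)} : Finset (ℕ × ℕ)) : Set (ℕ × ℕ))) ?_
      (Finset.finite_toSet _)).trans ?_
    · rintro ⟨a, b⟩ ⟨⟨c, hc, ha⟩, ⟨e, he, hb⟩, hab⟩
      have ha' : a = num c := ha
      have hb' : b = num e := hb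
      have hab' : a + b = N := hab
      have hd := digits_eq (c := c) (e := e) (c' := c1) (e' := e1) (by
        rw [← ha', ← hb', ← ha1', ← hb1', hab', hN'])
      have hu : ∀ k, Even #{i | (H k i && (xor (c i) (c1 i))) = true} :=
        fun k => even_xor (H k) c c1 (hc k) (hc1 k)
      have hv : ∀ k, Even #{i | (H k i && (xor (c i) (e i))) = true} :=
        fun k => even_xor (H k) c e (hc k) (he k)
      have hle : ∀ i, (xor (c i) (c1 i)) = true → (xor (c i) (e i)) = true := by
        intro i hi
        have h1 := hd i
        revert hi h1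
        cases c i <;> cases c1 i <;> cases e i <;> cases e1 i <;> simp
      rcases hmin (fun i => xor (c i) (c1 i)) (fun i => xor (c i) (e i)) hu hv hle with h | h
      · have hcc : c = c1 := by
          funext i
          have h1 := congrFun h i
          revert h1
          cases c i <;> cases c1 i <;> simp
        have hab2 : a = a1 := by rw [ha', ha1', hcc]
        have hb2 : b = b1 := by omega
        rw [hab2, hb2]
        simp
      · have hce : e = c1 := by
          funext i
          have h1 := congrFun h i
          revert h1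
          cases c i <;> cases c1 i <;> cases e i <;> simp
        have hb2 : b = a1 := by rw [hb', ha1', hce]
        have ha2 : a = b1 := by omega
        rw [ha2, hb2]
        simp
    · rw [Set.ncard_coe_finset]
      exact Finset.card_le_two

end Pool.Agent.Helper98.TY
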